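import Pool.Agent.R804.TK.Defs

set_option autoImplicit false

/-! TK-CON (helper790): the token graph of a contraction is a minor of the token graph. -/

namespace Pool.Agent.R790.TK

open Pool.Agent.R553.HW Pool.Agent.R804.TK

theorem exch {V : Type} {A C : Set V} {u v b : V} (hvC : v ∉ C)
    (h1 : A \ C = {u}) (h2 : C \ A = {b}) :
    insert v (A \ {u}) \ C = {v} ∧ C \ insert v (A \ {u}) = {b} := by
  have e1 : ∀ x, (x ∈ A ∧ x ∉ C) ↔ x = u := fun x => by
    have : x ∈ A \ C ↔ x ∈ ({u} : Set V) := by rw [h1]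
    exact this
  have e2 : ∀ x, (x ∈ C ∧ x ∉ A) ↔ x = b := fun x => by
    have : x ∈ C \ A ↔ x ∈ ({b} : Set V) := by rw [h2]
    exact this
  constructor
  · ext x
    constructor
    · rintro ⟨h | ⟨h, h'⟩, h''⟩
      · exact h
      · exact absurd ((e1 x).1 ⟨h, h''⟩) h'
    · intro h
      have hx : x = v := h
      rw [hx]
      exact ⟨Or.inl rfl, hvC⟩
  · ext x
    constructor
    · rintro ⟨h, h'⟩
      refine (e2 x).1 ⟨h, fun hA => h' (Or.inr ⟨hA, fun hu => ?_⟩)⟩
      have hu' : x = u := hu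
      exact ((e1 u).2 rfl).2 (hu' ▸ h)
    · intro h
      have hx : x = b := h
      have h3 := (e2 x).2 hx
      refine ⟨h3.1, ?_⟩
      rintro (h4 | ⟨h4, _⟩)
      · exact hvC (h4 ▸ h3.1)
      · exact h3.2 h4

theorem CON : S_CON := by
  classical
  intro V _ G u v huv k m hm
  have hne : u ≠ v := huv.ne
  let uW : {x : V // x ≠ v} := ⟨u, hne⟩
  let L : Set {x : V // x ≠ v} → Set V := fun S => Subtype.val '' S
  have hLv : ∀ S, v ∉ L S := by
    rintro S ⟨x, _, hx⟩
    exact x.2 hx
  have hLm : ∀ (S : Set {x : V // x ≠ v}) (x : {x : V // x ≠ v}), x.1 ∈ L S ↔ x ∈ S := by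
    intro S x
    constructor
    · rintro ⟨y, hy, hxy⟩
      rwa [Subtype.ext hxy] at hy
    · intro hx
      exact ⟨x, hx, rfl⟩
  have hLc : ∀ S : Set {x : V // x ≠ v}, (L S).ncard = S.ncard := fun S =>
    Set.ncard_image_of_injective S Subtype.val_injective
  have hL2 : ∀ S : Set {x : V // x ≠ v}, uW ∈ S →
      (insert v (L S \ {u})).ncard = S.ncard := by
    intro S hS
    rw [Set.ncard_exchange (hLv S) ((hLm S uW).2 hS), hLc]
  have hLd : ∀ (S T : Set {x : V // x ≠ v}) (a : {x : V // x ≠ v}), S \ T = {a} →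
      L S \ L T = {a.1} := by
    intro S T a h
    change (Subtype.val '' S) \ (Subtype.val '' T) = {a.1}
    rw [← Set.image_sdiff Subtype.val_injective, h, Set.image_singleton]
  let B : {S : Set {x : V // x ≠ v} // S.ncard = k} → Set {S : Set V // S.ncard = k} :=
    fun S' => {S | S.1 = L S'.1 ∨ (uW ∈ S'.1 ∧ S.1 = insert v (L S'.1 \ {u}))}
  let l1 : {S : Set {x : V // x ≠ v} // S.ncard = k} → {S : Set V // S.ncard = k} :=
    fun S' => ⟨L S'.1, (hLc _).trans S'.2⟩
  have hl1 : ∀ S', l1 S' ∈ B S' := fun S' => Or.inl rfl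
  -- the projection
  have hpi : ∀ (S' : {S : Set {x : V // x ≠ v} // S.ncard = k}) (S : {S : Set V // S.ncard = k}),
      S ∈ B S' → S'.1 = {x | x.1 ∈ S.1 ∨ (x.1 = u ∧ v ∈ S.1)} := by
    rintro S' S (h | ⟨hu, h⟩)
    · ext x
      rw [Set.mem_setOf_eq, h, hLm]
      constructor
      · exact Or.inl
      · rintro (h1 | ⟨_, h1⟩)
        · exact h1
        · exact absurd h1 (hLv _)
    · ext x
      rw [Set.mem_setOf_eq, h]
      constructor
      · intro hx
        by_cases hxu : x.1 = u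
        · exact Or.inr ⟨hxu, Or.inl rfl⟩
        · exact Or.inl (Or.inr ⟨(hLm _ _).2 hx, hxu⟩)
      · rintro (h1 | ⟨h1, _⟩)
        · rcases h1 with h1 | ⟨h1, _⟩
          · exact absurd h1 x.2
          · exact (hLm _ _).1 h1
        · have hxe : x = uW := Subtype.ext h1
          rw [hxe]
          exact hu
  refine CMt_comp (tok k G) (tok k (contr G u v)) B ?_ ?_ ?_ hm
  · -- connected
    intro S'
    rw [SimpleGraph.connected_iff]
    have hreach : ∀ x : B S', ((tok k G).induce (B S')).Reachable ⟨l1 S', hl1 S'⟩ x := by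
      rintro ⟨S, hS⟩
      rcases hS with h | ⟨hu, h⟩
      · have he : (⟨l1 S', hl1 S'⟩ : B S') = ⟨S, Or.inl h⟩ := by
          apply Subtype.ext
          apply Subtype.ext
          exact h.symm
        rw [he]
      · apply SimpleGraph.Adj.reachable
        change (tok k G).Adj (l1 S') S
        refine ⟨u, v, huv, ?_, ?_⟩
        · change L S'.1 \ S.1 = {u}
          rw [h]
          ext x
          constructor
          · rintro ⟨h1, h2⟩
            by_contra h3
            exact h2 (Or.inr ⟨h1, h3⟩)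
          · intro hx
            have hx' : x = u := hx
            rw [hx']
            refine ⟨(hLm _ uW).2 hu, ?_⟩
            rintro (h1 | ⟨_, h1⟩)
            · exact hne h1
            · exact h1 rfl
        · change S.1 \ L S'.1 = {v}
          rw [h]
          ext x
          constructor
          · rintro ⟨h1 | ⟨h1, _⟩, h2⟩
            · exact h1
            · exact absurd h1 h2
          · intro hx
            have hx' : x = v := hx
            rw [hx']
            exact ⟨Or.inl rfl, hLv _⟩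
    exact ⟨fun x y => (hreach x).symm.trans (hreach y), ⟨⟨l1 S', hl1 S'⟩⟩⟩
  · intro S' T' hST
    rw [Set.disjoint_left]
    intro S h1 h2
    apply hST
    apply Subtype.ext
    rw [hpi S' S h1, hpi T' S h2]
  · rintro S' T' ⟨a, b, ⟨hab, h⟩, h1, h2⟩
    have d1 := hLd _ _ _ h1
    have d2 := hLd _ _ _ h2
    have ha : a ∈ S'.1 \ T'.1 := by rw [h1]; rfl
    have hb : b ∈ T'.1 \ S'.1 := by rw [h2]; rfl
    rcases h with h | ⟨hau, h⟩ | ⟨hbu, h⟩
    · exact ⟨l1 S', hl1 S', l1 T', hl1 T', a.1, b.1, h, d1, d2⟩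
    · have hae : a = uW := Subtype.ext hau
      have hu : uW ∈ S'.1 := hae ▸ ha.1
      rw [hau] at d1
      obtain ⟨e1, e2⟩ := exch (hLv T'.1) d1 d2
      exact ⟨⟨insert v (L S'.1 \ {u}), (hL2 _ hu).trans S'.2⟩, Or.inr ⟨hu, rfl⟩, l1 T', hl1 T',
        v, b.1, h, e1, e2⟩
    · have hbe : b = uW := Subtype.ext hbu
      have hu : uW ∈ T'.1 := hbe ▸ hb.1
      rw [hbu] at d2
      obtain ⟨e1, e2⟩ := exch (hLv S'.1) d2 d1
      exact ⟨l1 S', hl1 S', ⟨insert v (L T'.1 \ {u}), (hL2 _ hu).trans T'.2⟩, Or.inr ⟨hu, rfl⟩,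
        a.1, v, h, e2, e1⟩

end Pool.Agent.R790.TK
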